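import Mathlib

set_option autoImplicit false

/-!
Hurewicz: a Polish space which is not sigma-compact contains a closed copy of the Baire space.
-/

namespace Pool.Agent.H2.HM

open Set Filter Topology TopologicalSpace

/-- the points without sigma-compact neighbourhoods -/
def Kr (W : Type) [TopologicalSpace W] : Set W :=
  {x | ∀ V ∈ 𝓝 x, ∀ S : Set W, IsSigmaCompact S → ¬ V ⊆ S}

theorem exists_sc (W : Type) [TopologicalSpace W] [SecondCountableTopology W] :
    ∃ S : Set W, IsSigmaCompact S ∧ (Kr W)ᶜ ⊆ S := by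
  obtain ⟨T, h1, h2, h3⟩ := isOpen_sUnion_countable
    {V : Set W | IsOpen V ∧ ∃ S, IsSigmaCompact S ∧ V ⊆ S} fun s hs => hs.1
  have h4 : ∀ V : T, ∃ S, IsSigmaCompact S ∧ (V : Set W) ⊆ S := fun V => (h2 V.2).2
  choose S hS1 hS2 using h4
  have := h1.to_subtype
  refine ⟨⋃ V, S V, isSigmaCompact_iUnion S hS1, fun x hx => ?_⟩
  simp only [Kr, mem_compl_iff, mem_ofPred_eq, not_forall, not_not] at hx
  obtain ⟨V, hV, S', hS', h⟩ := hx
  obtain ⟨V', hV', hV'o, hx'⟩ := mem_nhds_iff.1 hV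
  have h5 : x ∈ ⋃₀ {V : Set W | IsOpen V ∧ ∃ S, IsSigmaCompact S ∧ V ⊆ S} :=
    ⟨V', ⟨hV'o, S', hS', hV'.trans h⟩, hx'⟩
  rw [← h3] at h5
  obtain ⟨V1, hV1, hx1⟩ := h5
  exact mem_iUnion.2 ⟨⟨V1, hV1⟩, hS2 ⟨V1, hV1⟩ hx1⟩

section hur

variable {W : Type} [MetricSpace W] [CompleteSpace W] [SecondCountableTopology W]

theorem not_tb {x : W} (hx : x ∈ Kr W) {r : ℝ} (hr : 0 < r) :
    ¬ TotallyBounded (Metric.ball x r ∩ Kr W) := by
  intro h
  obtain ⟨S, hS1, hS2⟩ := exists_sc W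
  have hc : IsCompact (closure (Metric.ball x r ∩ Kr W)) :=
    h.closure.isCompact_of_isClosed isClosed_closure
  refine hx _ (Metric.ball_mem_nhds x hr) (closure (Metric.ball x r ∩ Kr W) ∪ S) ?_ ?_
  · have h1 := isSigmaCompact_iUnion (fun b : Bool => if b then closure (Metric.ball x r ∩ Kr W)
      else S) (by rintro (_ | _); exacts [hS1, hc.isSigmaCompact])
    have e : (⋃ b : Bool, if b then closure (Metric.ball x r ∩ Kr W) else S) =
        closure (Metric.ball x r ∩ Kr W) ∪ S := by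
      ext y
      simp only [mem_iUnion, Bool.exists_bool, mem_union]
      simp [or_comm]
    rw [e] at h1
    exact h1
  · intro y hy
    by_cases hK : y ∈ Kr W
    · exact Or.inl (subset_closure ⟨hy, hK⟩)
    · exact Or.inr (hS2 hK)

theorem exists_step {x : W} (hx : x ∈ Kr W) {r : ℝ} (hr : 0 < r) :
    ∃ (y : ℕ → W) (ρ : ℝ), 0 < ρ ∧ ρ ≤ r / 4 ∧ (∀ n, y n ∈ Kr W) ∧
      (∀ n, dist (y n) x < r / 2) ∧ ∀ n m, n ≠ m → 4 * ρ ≤ dist (y n) (y m) := by
  have h := not_tb hx (half_pos hr)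
  rw [Metric.totallyBounded_iff] at h
  push Not at h
  obtain ⟨ε, hε, h⟩ := h
  obtain ⟨f, hf1, hf2⟩ := exists_seq_of_forall_finset_exists
    (fun y => y ∈ Metric.ball x (r / 2) ∩ Kr W) (fun y z => ε ≤ dist y z) (by
      intro s _
      obtain ⟨y, hy, hy'⟩ := not_subset.1 (h s s.finite_toSet)
      refine ⟨y, hy, fun z hz => ?_⟩
      by_contra hcon
      push Not at hcon
      refine hy' (mem_iUnion₂.2 ⟨z, hz, ?_⟩)
      rw [Metric.mem_ball, dist_comm]
      exact hcon)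
  refine ⟨f, min (r / 4) (ε / 4), lt_min (by linarith) (by linarith), min_le_left _ _,
    fun n => (hf1 n).2, fun n => (hf1 n).1, fun n m hnm => ?_⟩
  have h1 := min_le_right (r / 4) (ε / 4)
  rcases lt_or_gt_of_ne hnm with h2 | h2
  · have := hf2 n m h2
    linarith
  · have := hf2 m n h2
    rw [dist_comm] at this
    linarith

/-- centres and radii -/
def Qt (W : Type) [MetricSpace W] : Type := {p : W × ℝ // p.1 ∈ Kr W ∧ 0 < p.2}

/-- the centres of the children -/
noncomputable def ys (q : Qt W) : ℕ → W := (exists_step q.2.1 q.2.2).choose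

/-- the radius of the children -/
noncomputable def rs (q : Qt W) : ℝ := (exists_step q.2.1 q.2.2).choose_spec.choose

theorem stp (q : Qt W) : 0 < rs q ∧ rs q ≤ q.1.2 / 4 ∧ (∀ n, ys q n ∈ Kr W) ∧
    (∀ n, dist (ys q n) q.1.1 < q.1.2 / 2) ∧ ∀ n m, n ≠ m → 4 * rs q ≤ dist (ys q n) (ys q m) :=
  (exists_step q.2.1 q.2.2).choose_spec.choose_spec

/-- the nodes along a branch -/
noncomputable def nd (q0 : Qt W) (β : ℕ → ℕ) : ℕ → Qt W
  | 0 => q0
  | n + 1 => ⟨(ys (nd q0 β n) (β n), rs (nd q0 β n)), (stp _).2.2.1 _, (stp _).1⟩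

theorem nd_congr (q0 : Qt W) {β β' : ℕ → ℕ} {n : ℕ} (h : ∀ i < n, β i = β' i) :
    nd q0 β n = nd q0 β' n := by
  induction n with
  | zero => rfl
  | succ n ih =>
    have e := ih fun i hi => h i (by omega)
    show (⟨(ys (nd q0 β n) (β n), rs (nd q0 β n)), _⟩ : Qt W) =
      ⟨(ys (nd q0 β' n) (β' n), rs (nd q0 β' n)), _⟩
    refine Subtype.ext ?_
    show (ys (nd q0 β n) (β n), rs (nd q0 β n)) = (ys (nd q0 β' n) (β' n), rs (nd q0 β' n))
    rw [e, h n (by omega)]

theorem nd_dist (q0 : Qt W) (β : ℕ → ℕ) (n m : ℕ) :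
    dist (nd q0 β (n + m)).1.1 (nd q0 β n).1.1 + (nd q0 β (n + m)).1.2 ≤ (nd q0 β n).1.2 := by
  induction m with
  | zero => simp
  | succ m ih =>
    obtain ⟨h1, h2, h3, h4, h5⟩ := stp (nd q0 β (n + m))
    have e1 : (nd q0 β (n + (m + 1))).1.1 = ys (nd q0 β (n + m)) (β (n + m)) := rfl
    have e2 : (nd q0 β (n + (m + 1))).1.2 = rs (nd q0 β (n + m)) := rfl
    rw [e1, e2]
    have h6 := h4 (β (n + m))
    have h7 := dist_triangle (ys (nd q0 β (n + m)) (β (n + m))) (nd q0 β (n + m)).1.1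
      (nd q0 β n).1.1
    have h8 := (nd q0 β (n + m)).2.2
    linarith

theorem nd_small (q0 : Qt W) (β : ℕ → ℕ) (n : ℕ) : (nd q0 β n).1.2 ≤ q0.1.2 * (1 / 4) ^ n := by
  induction n with
  | zero => simp [nd]
  | succ n ih =>
    obtain ⟨h1, h2, h3, h4, h5⟩ := stp (nd q0 β n)
    have e2 : (nd q0 β (n + 1)).1.2 = rs (nd q0 β n) := rfl
    rw [e2, pow_succ]
    linarith

theorem nd_lim (q0 : Qt W) (β : ℕ → ℕ) :
    ∃ w : W, ∀ n, dist w (nd q0 β n).1.1 ≤ (nd q0 β n).1.2 := by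
  have hsm : Tendsto (fun n : ℕ => q0.1.2 * (1 / 4 : ℝ) ^ n) atTop (𝓝 0) := by
    have := (tendsto_pow_atTop_nhds_zero_of_lt_one (r := (1 / 4 : ℝ)) (by norm_num)
      (by norm_num)).const_mul q0.1.2
    simpa using this
  have hle : ∀ n m, n ≤ m → dist (nd q0 β m).1.1 (nd q0 β n).1.1 ≤ (nd q0 β n).1.2 := by
    intro n m hnm
    obtain ⟨k, rfl⟩ := Nat.exists_eq_add_of_le hnm
    have h1 := nd_dist q0 β n k
    have h2 := (nd q0 β (n + k)).2.2
    linarith
  have hc : CauchySeq fun n => (nd q0 β n).1.1 := by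
    refine cauchySeq_of_le_tendsto_0 (fun n => 2 * (q0.1.2 * (1 / 4 : ℝ) ^ n)) ?_
      (by simpa using hsm.const_mul 2)
    intro n m N hn hm
    have h1 := hle N n hn
    have h2 := hle N m hm
    have h3 := nd_small q0 β N
    have h4 := dist_triangle_right (nd q0 β n).1.1 (nd q0 β m).1.1 (nd q0 β N).1.1
    linarith
  obtain ⟨w, hw⟩ := cauchySeq_tendsto_of_complete hc
  refine ⟨w, fun n => ?_⟩
  refine le_of_tendsto (hw.dist tendsto_const_nhds) ?_
  filter_upwards [eventually_ge_atTop n] with m hm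
  exact hle n m hm

/-- the embedding -/
noncomputable def em (q0 : Qt W) (β : ℕ → ℕ) : W := (nd_lim q0 β).choose

theorem em_dist (q0 : Qt W) (β : ℕ → ℕ) (n : ℕ) :
    dist (em q0 β) (nd q0 β n).1.1 ≤ (nd q0 β n).1.2 := (nd_lim q0 β).choose_spec n

theorem em_sep (q0 : Qt W) {β β' : ℕ → ℕ} {n : ℕ} (h : ∀ i < n, β i = β' i) (hn : β n ≠ β' n) :
    2 * rs (nd q0 β n) ≤ dist (em q0 β) (em q0 β') := by
  have e := nd_congr q0 h
  have h1 := em_dist q0 β (n + 1)
  have h2 := em_dist q0 β' (n + 1)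
  have e1 : (nd q0 β (n + 1)).1 = (ys (nd q0 β n) (β n), rs (nd q0 β n)) := rfl
  have e2 : (nd q0 β' (n + 1)).1 = (ys (nd q0 β' n) (β' n), rs (nd q0 β' n)) := rfl
  rw [e1] at h1
  rw [e2, ← e] at h2
  have h3 := (stp (nd q0 β n)).2.2.2.2 _ _ hn
  have h4 := dist_triangle4 (ys (nd q0 β n) (β n)) (em q0 β) (em q0 β') (ys (nd q0 β n) (β' n))
  rw [dist_comm (ys (nd q0 β n) (β n)) (em q0 β)] at h4
  simp only at h1 h2
  linarith

theorem em_cont (q0 : Qt W) : Continuous (em q0) := by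
  rw [continuous_iff_continuousAt]
  intro β
  rw [Metric.continuousAt_iff']
  intro ε hε
  have hsm : Tendsto (fun n : ℕ => 2 * (q0.1.2 * (1 / 4 : ℝ) ^ n)) atTop (𝓝 0) := by
    have := ((tendsto_pow_atTop_nhds_zero_of_lt_one (r := (1 / 4 : ℝ)) (by norm_num)
      (by norm_num)).const_mul q0.1.2).const_mul 2
    simpa using this
  obtain ⟨n, hn⟩ := (hsm.eventually (gt_mem_nhds hε)).exists
  have h1 : ∀ᶠ β' in 𝓝 β, ∀ i ∈ Finset.range n, β' i = β i := by
    rw [eventually_all_finset]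
    intro i _
    have h2 : ∀ᶠ k in 𝓝 (β i), k = β i := by
      rw [nhds_discrete]
      exact eventually_pure.2 rfl
    exact ((continuous_apply i).tendsto β).eventually h2
  filter_upwards [h1] with β' hβ'
  have e := nd_congr q0 (β := β') (β' := β) (n := n) fun i hi => hβ' i (Finset.mem_range.2 hi)
  have h2 := em_dist q0 β n
  have h3 := em_dist q0 β' n
  rw [e] at h3
  have h4 := nd_small q0 β n
  have h5 := dist_triangle_right (em q0 β') (em q0 β) (nd q0 β n).1.1
  linarith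

theorem em_inj (q0 : Qt W) : Function.Injective (em q0) := by
  intro β β' h
  by_contra hne
  have hex : ∃ n, β n ≠ β' n := by
    by_contra hcon
    push Not at hcon
    exact hne (funext hcon)
  classical
  have h1 := em_sep q0 (n := Nat.find hex) (fun i hi => not_not.1 (Nat.find_min hex hi))
    (Nat.find_spec hex)
  rw [h, dist_self] at h1
  have h2 := (stp (nd q0 β (Nat.find hex))).1
  linarith

theorem em_closed (q0 : Qt W) : IsClosedMap (em q0) := by
  intro C hC
  refine IsSeqClosed.isClosed fun ws w hws hw => ?_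
  choose βs hβ1 hβ2 using hws
  have hP : ∀ n, ∃ N, ∀ k ≥ N, ∀ i < n, βs k i = βs N i := by
    intro n
    induction n with
    | zero => exact ⟨0, fun k _ i hi => absurd hi (Nat.not_lt_zero i)⟩
    | succ n ih =>
      obtain ⟨N, hN⟩ := ih
      have hρ := (stp (nd q0 (βs N) n)).1
      obtain ⟨M, hM⟩ := Metric.cauchySeq_iff.1 hw.cauchySeq (2 * rs (nd q0 (βs N) n))
        (by linarith)
      refine ⟨max N M, fun k hk i hi => ?_⟩
      have hkN : k ≥ N := le_trans (le_max_left _ _) hk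
      have hpre : ∀ j < n, βs k j = βs (max N M) j := fun j hj => by
        rw [hN k hkN j hj, hN (max N M) (le_max_left _ _) j hj]
      rcases Nat.lt_succ_iff_lt_or_eq.1 hi with h1 | h1
      · exact hpre i h1
      · subst h1
        by_contra hne
        have h2 := em_sep q0 hpre hne
        rw [hβ2, hβ2, nd_congr q0 (β := βs k) (β' := βs N) (hN k hkN)] at h2
        have h3 := hM k (le_trans (le_max_right _ _) hk) (max N M) (le_max_right _ _)
        linarith
  choose N hN using hP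
  let β : ℕ → ℕ := fun i => βs (N (i + 1)) i
  have hlim : Tendsto βs atTop (𝓝 β) := by
    rw [tendsto_pi_nhds]
    intro i
    refine tendsto_const_nhds.congr' ?_
    filter_upwards [eventually_ge_atTop (N (i + 1))] with k hk
    exact (hN (i + 1) k hk i (by omega)).symm
  have hmem : β ∈ C := hC.mem_of_tendsto hlim (Eventually.of_forall hβ1)
  refine ⟨β, hmem, ?_⟩
  have h1 : Tendsto (fun k => em q0 (βs k)) atTop (𝓝 (em q0 β)) :=
    ((em_cont q0).tendsto β).comp hlim
  simp only [hβ2] at h1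
  exact tendsto_nhds_unique h1 hw

end hur

/-- **Hurewicz.** -/
theorem exists_baire (W : Type) [TopologicalSpace W] [PolishSpace W] (h : ¬ SigmaCompactSpace W) :
    ∃ e : (ℕ → ℕ) → W, IsClosedEmbedding e := by
  let := upgradeIsCompletelyMetrizable W
  have hne : (Kr W).Nonempty := by
    rw [nonempty_iff_ne_empty]
    intro he
    obtain ⟨S, hS1, hS2⟩ := exists_sc W
    rw [he, compl_empty] at hS2
    have e : S = univ := univ_subset_iff.1 hS2
    rw [e] at hS1
    exact h ⟨hS1⟩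
  obtain ⟨x, hx⟩ := hne
  let q0 : Qt W := ⟨(x, 1), hx, one_pos⟩
  exact ⟨em q0, IsClosedEmbedding.of_continuous_injective_isClosedMap (em_cont q0) (em_inj q0)
    (em_closed q0)⟩

end Pool.Agent.H2.HM
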