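import Pool.Agent.H2.HM.Sig
import Pool.Agent.H2.HM.Hur
import Pool.Graph.R_pool_sql_team_ae5b0c61.Results.MP_a9bf58_lc.NotAnalytic

set_option autoImplicit false

/-!
Homeomorphism of the closed subsets of a Polish space: the class of the countable discrete space,
and reductions.
-/

namespace Pool.Agent.H2.HM

open Set Filter Topology TopologicalSpace MeasureTheory
open Pool.Agent.H39.NonBorel (IF ev_eq res not_analytic_compl_IF)
open Pool.Agent.Results.MP_a9bf58_lc.NotAnalytic (S S_countable S_infinite wf not_wf)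

section

variable {U : Type} [TopologicalSpace U]

/-- the coding of trees by closed sets -/
def gT {e : (ℕ → ℕ) → U} (he : IsClosedEmbedding e) (T : List ℕ → Bool) : Closeds U :=
  ⟨e '' closure (S T), he.isClosedMap _ isClosed_closure⟩

theorem meas_gT {e : (ℕ → ℕ) → U} (he : IsClosedEmbedding e) :
    @Measurable _ _ _ (effros U) (gT he) := by
  refine @measurable_generateFrom _ _ _ _ _ ?_
  rintro _ ⟨V, h1, rfl⟩
  refine IsOpen.measurableSet (isOpen_iff_mem_nhds.2 fun T hT => ?_)
  obtain ⟨_, ⟨x, h2, rfl⟩, h3⟩ := hT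
  obtain ⟨y, h4, n, h5, h6, h7⟩ := mem_closure_iff.1 h2 _ (h1.preimage he.continuous) h3
  have : ∀ᶠ T' in 𝓝 T, ∀ k ∈ Finset.range n,
      T' (res (fun i => y i - 1) k) = T (res (fun i => y i - 1) k) :=
    (eventually_all_finset _).2 fun i _ => ev_eq (continuous_apply _) T
  filter_upwards [this] with T' hT'
  exact ⟨_, ⟨y, subset_closure ⟨n, h5, h6, h7.imp id fun h k hk =>
    (hT' k (Finset.mem_range.2 hk)).trans (h k hk)⟩, rfl⟩, h4⟩

theorem gT_iff {e : (ℕ → ℕ) → U} (he : IsClosedEmbedding e) (T : List ℕ → Bool) :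
    Nonempty (gT he T ≃ₜ ℕ) ↔ T ∉ IF := by
  constructor
  · rintro ⟨φ⟩ hT
    refine not_wf hT ?_
    exact ((he.isEmbedding.homeomorphImage _).trans φ).symm.discreteTopology
  · intro hT
    obtain ⟨h2, h3⟩ := wf hT
    have h4 : S T ≃ₜ gT he T := (he.isEmbedding.homeomorphImage _).trans
      (Homeomorph.setCongr (by simp [gT, h2]))
    have := (S_countable T).to_subtype
    have := (S_infinite T).to_subtype
    have h5 := h4.discreteTopology
    have h6 : Countable (gT he T) := h4.symm.injective.countable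
    have h7 : Infinite (gT he T) := Infinite.of_injective _ h4.injective
    exact ⟨(Classical.choice nonempty_equiv_of_countable).toHomeomorphOfDiscrete⟩

theorem not_an_nat {e : (ℕ → ℕ) → U} (he : IsClosedEmbedding e) :
    ¬ An (effros U) {B : Closeds U | Nonempty (B ≃ₜ ℕ)} := by
  rintro ⟨B, hB, h⟩
  let := effros U
  have h2 : MeasurableSet {p : (List ℕ → Bool) × (ℕ → ℕ) | (gT he p.1, p.2) ∈ B} :=
    (((meas_gT he).comp measurable_fst).prodMk measurable_snd) hB
  have h3 := h2.analyticSet.image_of_continuous continuous_fst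
  refine not_analytic_compl_IF (Eq.subst ?_ h3)
  ext T
  rw [mem_compl_iff, ← gT_iff he]
  have h4 : gT he T ∈ {B : Closeds U | Nonempty (B ≃ₜ ℕ)} ↔ ∃ z, (gT he T, z) ∈ B := by
    rw [h]
    exact Iff.rfl
  refine Iff.trans ?_ h4.symm
  constructor
  · rintro ⟨⟨_, z⟩, h5, rfl⟩
    exact ⟨z, h5⟩
  · rintro ⟨z, h5⟩
    exact ⟨(T, z), h5, rfl⟩

theorem an_section {X : Type} {m : MeasurableSpace X} {R : Set (X × X)}
    (h : An (m.prod m) R) (x : X) : An m {y | (x, y) ∈ R} := by
  obtain ⟨B, hB, rfl⟩ := h
  have h1 : Measurable fun p : X × (ℕ → ℕ) => ((x, p.1), p.2) :=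
    (measurable_const.prodMk measurable_fst).prodMk measurable_snd
  exact ⟨{p | ((x, p.1), p.2) ∈ B}, h1 hB, rfl⟩

theorem an_empty {X : Type} (m : MeasurableSpace X) : An m (∅ : Set X) :=
  ⟨∅, MeasurableSet.empty, by
    ext x
    exact ⟨fun h => h.elim, fun ⟨_, h⟩ => h.elim⟩⟩

theorem an_preimage {X Y : Type} {m : MeasurableSpace X} {m' : MeasurableSpace Y} {f : X → Y}
    (hf : Measurable f) {R : Set (Y × Y)} (h : An (m'.prod m') R) :
    An (m.prod m) {p : X × X | (f p.1, f p.2) ∈ R} := by
  obtain ⟨B, hB, rfl⟩ := h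
  have h1 : Measurable fun p : (X × X) × (ℕ → ℕ) => ((f p.1.1, f p.1.2), p.2) :=
    ((hf.comp (measurable_fst.comp measurable_fst)).prodMk
      (hf.comp (measurable_snd.comp measurable_fst))).prodMk measurable_snd
  exact ⟨{p | ((f p.1.1, f p.1.2), p.2) ∈ B}, h1 hB, rfl⟩

end

/-! ### reductions -/

open Classical in
/-- the code of a closed set -/
noncomputable def code {U : Type} [TopologicalSpace U] [SecondCountableTopology U]
    (A : Closeds U) (V : countableBasis U) : Bool := decide ((A : Set U) ∩ V).Nonempty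

theorem code_inj {U : Type} [TopologicalSpace U] [SecondCountableTopology U] :
    Function.Injective (code (U := U)) := by
  classical
  intro A B h
  refine Closeds.ext ?_
  ext u
  rw [← A.isClosed.closure_eq, ← B.isClosed.closure_eq,
    (isBasis_countableBasis U).mem_closure_iff, (isBasis_countableBasis U).mem_closure_iff]
  refine forall₂_congr fun V hV => ?_
  have := congrFun h ⟨V, hV⟩
  unfold code at this
  rw [decide_eq_decide] at this
  rw [inter_comm V, inter_comm V, this]

theorem meas_code {U : Type} [TopologicalSpace U] [SecondCountableTopology U] :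
    @Measurable _ _ (effros U) _ (code (U := U)) := by
  classical
  let := effros U
  refine measurable_pi_lambda _ fun V => measurable_to_bool ?_
  have : (fun A : Closeds U => code A V) ⁻¹' {true} =
      {F : Closeds U | ((F : Set U) ∩ V).Nonempty} := by
    ext A
    simp [code]
  rw [this]
  exact meas_hit (isOpen_of_mem_countableBasis V.2)

/-- reducible to an analytic equivalence relation -/
def Red (W : Type) [TopologicalSpace W] : Prop :=
  ∃ (Y : Type) (m : MeasurableSpace Y) (_ : StandardBorelSpace Y) (E : Y → Y → Prop),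
    Equivalence E ∧ An (m.prod m) {p : Y × Y | E p.1 p.2} ∧
      ∃ f : Closeds W → Y, Measurable[effros W, m] f ∧
        ∀ A B : Closeds W, Nonempty (A ≃ₜ B) ↔ E (f A) (f B)

theorem an_of_red {W : Type} [TopologicalSpace W] (h : Red W) :
    An ((effros W).prod (effros W)) {p : Closeds W × Closeds W | Nonempty (p.1 ≃ₜ p.2)} := by
  obtain ⟨Y, m, _, E, -, h1, f, hf, h2⟩ := h
  let := effros W
  have h3 := an_preimage hf h1
  simp only [mem_ofPred_eq, ← h2] at h3
  exact h3

theorem exists_seq {W : Type} [MetricSpace W] [SecondCountableTopology W] {A : Closeds W}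
    (hA : (A : Set W).Nonempty) : ∃ a : ℕ → W, closure (range a) = A := by
  have hne : Nonempty A := hA.to_subtype
  obtain ⟨a', ha'⟩ := exists_dense_seq A
  refine ⟨fun n => (a' n : W), Subset.antisymm ?_ fun y hy => ?_⟩
  · refine closure_minimal ?_ A.isClosed
    rintro _ ⟨n, rfl⟩
    exact (a' n).2
  · have h1 := image_closure_subset_closure_image
      (continuous_subtype_val (p := (· ∈ (A : Set W)))) (s := range a')
      ⟨⟨y, hy⟩, ha' _, rfl⟩
    rw [← range_comp] at h1
    exact h1

theorem red_homeo (W : Type) [TopologicalSpace W] [PolishSpace W] [SigmaCompactSpace W] :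
    Red W := by
  classical
  let := effros W
  let := upgradeIsCompletelyMetrizable W
  let : MeasurableSpace W := borel W
  have : BorelSpace W := ⟨rfl⟩
  by_cases hW : IsEmpty W
  · refine ⟨Unit, inferInstance, inferInstance, fun _ _ => True,
      ⟨fun _ => trivial, fun _ => trivial, fun _ _ => trivial⟩,
      ⟨univ, MeasurableSet.univ, ?_⟩, fun _ => (), measurable_const, fun A B => ?_⟩
    · ext p
      exact ⟨fun _ => ⟨fun _ => 0, trivial⟩, fun _ => trivial⟩
    · have e : A = B := by
        ext x
        exact (hW.false x).elim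
      subst e
      exact ⟨fun _ => trivial, fun _ => ⟨Homeomorph.refl _⟩⟩
  rw [not_isEmpty_iff] at hW
  obtain ⟨s, hs, hss⟩ := PolishSpace.exists_nat_nat_continuous_surjective ((ℕ → W) × (ℕ → W))
  have hK := isCompact_compactCovering W
  have hU : ∀ x : W, ∃ l, x ∈ compactCovering W l := fun x => by
    have := iUnion_compactCovering W
    exact mem_iUnion.1 (this ▸ mem_univ x)
  have hco : Countable (countableBasis W) := (countable_countableBasis W).to_subtype
  let E : (countableBasis W → Bool) → (countableBasis W → Bool) → Prop := fun x y =>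
    x = y ∨ ∃ A B : Closeds W, x = code A ∧ y = code B ∧ Nonempty (A ≃ₜ B)
  refine ⟨countableBasis W → Bool, inferInstance, inferInstance, E, ⟨?_, ?_, ?_⟩, ?_, code,
    meas_code, fun A B => ?_⟩
  · exact fun x => Or.inl rfl
  · rintro x y (h | ⟨A, B, h1, h2, ⟨φ⟩⟩)
    · exact Or.inl h.symm
    · exact Or.inr ⟨B, A, h2, h1, ⟨φ.symm⟩⟩
  · rintro x y z (h | ⟨A, B, h1, h2, ⟨φ⟩⟩) (h' | ⟨A', B', h1', h2', ⟨φ'⟩⟩)
    · exact Or.inl (h.trans h')
    · exact Or.inr ⟨A', B', h.trans h1', h2', ⟨φ'⟩⟩
    · exact Or.inr ⟨A, B, h1, h'.symm.trans h2, ⟨φ⟩⟩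
    · have e : B = A' := code_inj (h2.symm.trans h1')
      subst e
      exact Or.inr ⟨A, B', h1, h2', ⟨φ.trans φ'⟩⟩
  · refine ⟨{p | p.1.1 = p.1.2 ∨ ((p.1.1 = code (cl (s p.2).1) ∧ p.1.2 = code (cl (s p.2).2)) ∧
      Cn (s p.2).1 (s p.2).2 ∧ Cn (s p.2).2 (s p.2).1)}, ?_, ?_⟩
    · have h11 : Measurable fun p : ((countableBasis W → Bool) × (countableBasis W → Bool)) ×
          (ℕ → ℕ) => p.1.1 := measurable_fst.comp measurable_fst
      have h12 : Measurable fun p : ((countableBasis W → Bool) × (countableBasis W → Bool)) ×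
          (ℕ → ℕ) => p.1.2 := measurable_snd.comp measurable_fst
      have hs2 : Measurable fun p : ((countableBasis W → Bool) × (countableBasis W → Bool)) ×
          (ℕ → ℕ) => s p.2 := hs.measurable.comp measurable_snd
      refine MeasurableSet.union ?_ (MeasurableSet.inter ?_ (MeasurableSet.inter ?_ ?_))
      · exact measurableSet_eq_fun h11 h12
      · exact (measurableSet_eq_fun h11
          (meas_code.comp (meas_cl.comp (measurable_fst.comp hs2)))).inter
          (measurableSet_eq_fun h12
            (meas_code.comp (meas_cl.comp (measurable_snd.comp hs2))))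
      · exact hs2 (meas_cn hK hU)
      · exact (measurable_swap.comp hs2) (meas_cn hK hU)
    · ext ⟨x, y⟩
      constructor
      · rintro (h | ⟨A, B, h1, h2, ⟨φ⟩⟩)
        · exact ⟨fun _ => 0, Or.inl h⟩
        · have e1 : x = code A := h1
          have e2 : y = code B := h2
          by_cases hA : (A : Set W).Nonempty
          · obtain ⟨a, ha⟩ := exists_seq hA
            obtain ⟨b, hb, h3, h4⟩ := of_homeo A.isClosed B.isClosed φ ha
            obtain ⟨z, hz⟩ := hss (a, b)
            refine ⟨z, Or.inr ⟨⟨?_, ?_⟩, ?_, ?_⟩⟩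
            · show x = code (cl (s z).1)
              rw [hz, e1]
              exact congrArg code (Closeds.ext ha).symm
            · show y = code (cl (s z).2)
              rw [hz, e2]
              exact congrArg code (Closeds.ext hb).symm
            · show Cn (s z).1 (s z).2
              rw [hz]
              exact h3
            · show Cn (s z).2 (s z).1
              rw [hz]
              exact h4
          · refine ⟨fun _ => 0, Or.inl ?_⟩
            show x = y
            rw [e1, e2]
            congr 1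
            refine Closeds.ext ?_
            rw [not_nonempty_iff_eq_empty] at hA
            rw [hA]
            symm
            by_contra hB
            obtain ⟨z, hz⟩ := nonempty_iff_ne_empty.2 hB
            have h5 : ((φ.symm ⟨z, hz⟩ : A) : W) ∈ (A : Set W) := (φ.symm ⟨z, hz⟩).2
            rw [hA] at h5
            exact h5
      · rintro ⟨z, h | ⟨⟨h1, h2⟩, h3, h4⟩⟩
        · exact Or.inl h
        · exact Or.inr ⟨cl (s z).1, cl (s z).2, h1, h2, homeo_of h3 h4⟩
  · constructor
    · exact fun h => Or.inr ⟨A, B, rfl, rfl, h⟩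
    · rintro (h | ⟨A', B', h1, h2, h3⟩)
      · rw [code_inj h]
        exact ⟨Homeomorph.refl _⟩
      · rw [code_inj h1, code_inj h2]
        exact h3

/-- the theorem -/
theorem main (W : Type) [TopologicalSpace W] [PolishSpace W] : List.TFAE
    [SigmaCompactSpace W,
      An ((effros W).prod (effros W)) {p : Closeds W × Closeds W | Nonempty (p.1 ≃ₜ p.2)},
      Red W,
      ∀ A : Closeds W, An (effros W) {B : Closeds W | Nonempty (A ≃ₜ B)},
      An (effros W) {B : Closeds W | Nonempty (B ≃ₜ ℕ)}] := by
  tfae_have 1 → 3 := fun _ => red_homeo W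
  tfae_have 3 → 2 := an_of_red
  tfae_have 2 → 4 := fun h A => an_section h A
  tfae_have 4 → 5 := by
    intro h
    by_cases hex : ∃ A : Closeds W, Nonempty (A ≃ₜ ℕ)
    · obtain ⟨A, ⟨φ⟩⟩ := hex
      have e : {B : Closeds W | Nonempty (B ≃ₜ ℕ)} = {B : Closeds W | Nonempty (A ≃ₜ B)} := by
        ext B
        exact ⟨fun ⟨ψ⟩ => ⟨φ.trans ψ.symm⟩, fun ⟨ψ⟩ => ⟨ψ.symm.trans φ⟩⟩
      rw [e]
      exact h A
    · have e : {B : Closeds W | Nonempty (B ≃ₜ ℕ)} = ∅ := by
        ext B
        exact ⟨fun h' => hex ⟨B, h'⟩, fun h' => h'.elim⟩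
      rw [e]
      exact an_empty _
  tfae_have 5 → 1 := by
    intro h
    by_contra hW
    obtain ⟨e, he⟩ := exists_baire W hW
    exact not_an_nat he h
  tfae_finish

end Pool.Agent.H2.HM
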