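import Pool.Agent.H2.HM.Hur
import Pool.Graph.R_seed8.Results.MP_b0da28_lc.ClosedNotReducible

set_option autoImplicit false

/-!
Closed equivalence relations on sigma-compact Polish spaces and the jump of equality.
-/

namespace Pool.Agent.H2.HM

open Set Filter Topology TopologicalSpace MeasureTheory

section

variable {X : Type} [TopologicalSpace X]

/-- closed relations -/
def Cr (E : Setoid X) : Prop := IsClosed {p : X × X | E p.1 p.2}

/-- countably many invariant open sets separate the classes -/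
def Sepd (E : Setoid X) : Prop :=
  ∃ U : ℕ → Set X, (∀ n, IsOpen (U n)) ∧ (∀ n x y, E x y → x ∈ U n → y ∈ U n) ∧
    ∀ x y, (∀ n, x ∈ U n ↔ y ∈ U n) → E x y

theorem sepd_of {E : Setoid X} {ι : Type} [Countable ι] (U : ι → Set X) (h1 : ∀ n, IsOpen (U n))
    (h2 : ∀ n x y, E x y → x ∈ U n → y ∈ U n) (h3 : ∀ x y, (∀ n, x ∈ U n ↔ y ∈ U n) → E x y) :
    Sepd E := by
  obtain ⟨s, hs⟩ := exists_surjective_nat (Option ι)
  refine ⟨fun n => (s n).elim univ U, fun n => ?_, fun n x y hxy => ?_, fun x y h => h3 x y ?_⟩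
  · show IsOpen ((s n).elim univ U)
    cases s n with
    | none => exact isOpen_univ
    | some i => exact h1 i
  · show x ∈ (s n).elim univ U → y ∈ (s n).elim univ U
    cases s n with
    | none => exact fun _ => mem_univ _
    | some i => exact h2 i x y hxy
  · intro i
    obtain ⟨n, hn⟩ := hs (some i)
    have := h n
    simp only [hn] at this
    exact this

theorem sepd_sigma (X : Type) [TopologicalSpace X] [PolishSpace X] [SigmaCompactSpace X]
    {E : Setoid X} (hE : Cr E) : Sepd E := by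
  let := upgradeIsCompletelyMetrizable X
  have := (countable_countableBasis X).to_subtype
  have hK := isCompact_compactCovering X
  have hU : ∀ x : X, ∃ l, x ∈ compactCovering X l := fun x => by
    have := iUnion_compactCovering X
    exact mem_iUnion.1 (this ▸ mem_univ x)
  have hsat : ∀ K : Set X, IsCompact K → IsClosed {y | ∃ x ∈ K, E x y} := by
    intro K hK
    refine IsSeqClosed.isClosed fun ys y hys hy => ?_
    choose xs h1 h2 using hys
    obtain ⟨a, ha, φ, hφ, hlim⟩ := hK.tendsto_subseq h1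
    refine ⟨a, ha, ?_⟩
    have h3 : Tendsto (fun n => (xs (φ n), ys (φ n))) atTop (𝓝 (a, y)) :=
      hlim.prodMk_nhds (hy.comp hφ.tendsto_atTop)
    exact hE.mem_of_tendsto h3 (Eventually.of_forall fun n => h2 (φ n))
  refine sepd_of (ι := ℕ × countableBasis X)
    (fun i => {y | ∃ x ∈ compactCovering X i.1 ∩ closure (i.2 : Set X), E x y}ᶜ)
    (fun i => (hsat _ ((hK i.1).inter_right isClosed_closure)).isOpen_compl) ?_ ?_
  · rintro i x y hxy hx ⟨z, hz, hzy⟩
    exact hx ⟨z, hz, E.trans' hzy (E.symm' hxy)⟩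
  · intro x y h
    obtain ⟨n, hn⟩ := hU y
    by_contra hcon
    have h1 : ∀ j : ℕ, ∃ z, dist z y ≤ 1 / ((j : ℝ) + 1) ∧ E z x := by
      intro j
      obtain ⟨V, hV, hyV, hVs⟩ := (isBasis_countableBasis X).exists_subset_of_mem_open
        (show y ∈ Metric.ball y (1 / ((j : ℝ) + 1)) from Metric.mem_ball_self (by positivity))
        Metric.isOpen_ball
      have h2 : y ∉ {y | ∃ x ∈ compactCovering X n ∩ closure V, E x y}ᶜ := fun h2 =>
        h2 ⟨y, ⟨hn, subset_closure hyV⟩, E.refl' y⟩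
      have h3 : x ∉ {y | ∃ x ∈ compactCovering X n ∩ closure V, E x y}ᶜ := fun h3 =>
        h2 ((h (n, ⟨V, hV⟩)).1 h3)
      rw [notMem_compl_iff] at h3
      obtain ⟨z, hz, hzx⟩ := h3
      exact ⟨z, Metric.mem_closedBall.1 (closure_minimal
        (hVs.trans Metric.ball_subset_closedBall) Metric.isClosed_closedBall hz.2), hzx⟩
    choose z hz1 hz2 using h1
    have h2 : Tendsto z atTop (𝓝 y) := by
      rw [tendsto_iff_dist_tendsto_zero]
      exact squeeze_zero (fun _ => dist_nonneg) hz1 tendsto_one_div_add_atTop_nhds_zero_nat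
    have h3 : Tendsto (fun n => (z n, x)) atTop (𝓝 (y, x)) := h2.prodMk_nhds tendsto_const_nhds
    exact hcon (E.symm' (hE.mem_of_tendsto h3 (Eventually.of_forall hz2)))

/-- zero-dimensional spaces -/
def Zd (X : Type) [TopologicalSpace X] : Prop :=
  ∀ (U : Set X) (x : X), IsOpen U → x ∈ U → ∃ V, IsClopen V ∧ x ∈ V ∧ V ⊆ U

theorem zd_baire : Zd (ℕ → ℕ) := by
  intro U x hU hx
  obtain ⟨n, hn⟩ : ∃ n, PiNat.cylinder x n ⊆ U := by
    have h1 := (PiNat.isTopologicalBasis_cylinders (fun _ : ℕ => ℕ)).exists_subset_of_mem_open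
      hx hU
    obtain ⟨_, ⟨y, n, rfl⟩, h2, h3⟩ := h1
    exact ⟨n, by rw [PiNat.mem_cylinder_iff_eq.1 h2]; exact h3⟩
  refine ⟨PiNat.cylinder x n, ⟨?_, PiNat.isOpen_cylinder _ x n⟩, PiNat.self_mem_cylinder x n, hn⟩
  have e : PiNat.cylinder x n = ⋂ i, ⋂ _ : i < n, {y | y i = x i} := by
    ext y
    simp [PiNat.mem_cylinder_iff]
  rw [e]
  exact isClosed_iInter fun i => isClosed_iInter fun _ =>
    isClosed_eq (continuous_apply i) continuous_const

theorem red_of_sepd [SecondCountableTopology X] (h0 : Zd X) {E : Setoid X} (h : Sepd E) :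
    ∃ f : X → (ℕ → ℕ), Continuous f ∧ ∀ x y, E x y ↔ range (f x) = range (f y) := by
  classical
  obtain ⟨U, h1, h2, h3⟩ := h
  have hW : ∀ n, ∃ W : ℕ → Set X, (∀ j, IsClopen (W j)) ∧ (∃ j, W j = ∅) ∧ ⋃ j, W j = U n := by
    intro n
    obtain ⟨T, hT1, hT2, hT3⟩ := isOpen_sUnion_countable {V : Set X | IsClopen V ∧ V ⊆ U n}
      fun V hV => hV.1.isOpen
    obtain ⟨W, hW⟩ := (hT1.insert ∅).exists_eq_range ⟨∅, mem_insert _ _⟩
    have h4 : ∀ j, W j ∈ insert ∅ T := fun j => by
      rw [hW]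
      exact mem_range_self j
    refine ⟨W, fun j => ?_, ?_, ?_⟩
    · rcases h4 j with h5 | h5
      · rw [h5]
        exact isClopen_empty
      · exact (hT2 h5).1
    · have h5 : (∅ : Set X) ∈ range W := by
        rw [← hW]
        exact mem_insert _ _
      exact h5
    · refine Subset.antisymm (iUnion_subset fun j => ?_) fun x hx => ?_
      · rcases h4 j with h5 | h5
        · rw [h5]
          exact empty_subset _
        · exact (hT2 h5).2
      · obtain ⟨V, hV, hxV, hVU⟩ := h0 (U n) x (h1 n) hx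
        have h5 : x ∈ ⋃₀ {V : Set X | IsClopen V ∧ V ⊆ U n} := ⟨V, ⟨hV, hVU⟩, hxV⟩
        rw [← hT3] at h5
        obtain ⟨V', hV', hxV'⟩ := h5
        have h6 : V' ∈ range W := by
          rw [← hW]
          exact mem_insert_of_mem _ hV'
        obtain ⟨j, rfl⟩ := h6
        exact mem_iUnion.2 ⟨j, hxV'⟩
  choose W hW1 hW2 hW3 using hW
  let f : X → (ℕ → ℕ) := fun x k =>
    if x ∈ W (Nat.unpair k).1 (Nat.unpair k).2 then (Nat.unpair k).1 + 1 else 0
  have hr0 : ∀ x, 0 ∈ range (f x) := by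
    intro x
    obtain ⟨j, hj⟩ := hW2 0
    refine ⟨Nat.pair 0 j, ?_⟩
    show (if x ∈ W (Nat.unpair (Nat.pair 0 j)).1 (Nat.unpair (Nat.pair 0 j)).2 then _ else 0) = 0
    rw [Nat.unpair_pair]
    simp only [hj]
    exact if_neg (notMem_empty x)
  have hr : ∀ x n, n + 1 ∈ range (f x) ↔ x ∈ U n := by
    intro x n
    rw [← hW3 n, mem_iUnion]
    constructor
    · rintro ⟨k, hk⟩
      have hk' : (if x ∈ W (Nat.unpair k).1 (Nat.unpair k).2 then (Nat.unpair k).1 + 1 else 0) =
        n + 1 := hk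
      split_ifs at hk' with h4
      have h5 : (Nat.unpair k).1 = n := by omega
      rw [h5] at h4
      exact ⟨_, h4⟩
    · rintro ⟨j, hj⟩
      refine ⟨Nat.pair n j, ?_⟩
      show (if x ∈ W (Nat.unpair (Nat.pair n j)).1 (Nat.unpair (Nat.pair n j)).2 then
        (Nat.unpair (Nat.pair n j)).1 + 1 else 0) = n + 1
      rw [Nat.unpair_pair]
      exact if_pos hj
  refine ⟨f, continuous_pi fun k => ?_, fun x y => ⟨fun hxy => ?_, fun hxy => h3 x y fun n => ?_⟩⟩
  · refine Continuous.if (fun a ha => ?_) continuous_const continuous_const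
    rw [show {x | x ∈ W (Nat.unpair k).1 (Nat.unpair k).2} = W (Nat.unpair k).1 (Nat.unpair k).2
      from rfl, (hW1 _ _).frontier_eq] at ha
    exact ha.elim
  · ext m
    cases m with
    | zero => exact iff_of_true (hr0 x) (hr0 y)
    | succ n =>
      rw [hr, hr]
      exact ⟨h2 n x y hxy, h2 n y x (E.symm' hxy)⟩
  · rw [← hr, ← hr, hxy]

/-- reducibility to the jump of equality -/
def Rj (E : Setoid X) : Prop :=
  ∃ f : X → (ℕ → (ℕ → ℕ)), Continuous f ∧ ∀ x y, E x y ↔ range (f x) = range (f y)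

theorem rj_of {E : Setoid X}
    (h : ∃ f : X → (ℕ → ℕ), Continuous f ∧ ∀ x y, E x y ↔ range (f x) = range (f y)) : Rj E := by
  obtain ⟨f, hf, h1⟩ := h
  refine ⟨fun x n _ => f x n, ?_, fun x y => ?_⟩
  · exact continuous_pi fun n => continuous_pi fun _ => (continuous_apply n).comp hf
  · rw [h1]
    have e : ∀ x, range (fun n (_ : ℕ) => f x n) = (fun m (_ : ℕ) => m) '' range (f x) := by
      intro x
      rw [← range_comp]
      rfl
    rw [e, e]
    refine ⟨fun h => by rw [h], fun h => ?_⟩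
    exact (image_injective.2 fun a b hab => congrFun hab 0) h

/-- smooth equivalence relations -/
def Sm (E : Setoid X) : Prop :=
  ∃ (Z : Type) (_ : TopologicalSpace Z) (_ : PolishSpace Z) (g : X → Z),
    @Measurable X Z (borel X) (borel Z) g ∧ ∀ x y, E x y ↔ g x = g y

/-- the classes have at most two elements -/
def C2 (E : Setoid X) : Prop := ∀ x y z, E x y → E x z → x = y ∨ x = z ∨ y = z

/-- transport along an embedding -/
def tr {e : (ℕ → ℕ) → X} (he : Function.Injective e) (E : Setoid (ℕ → ℕ)) : Setoid X where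
  r x y := x = y ∨ ∃ a b, e a = x ∧ e b = y ∧ E a b
  iseqv := by
    refine ⟨fun x => Or.inl rfl, ?_, ?_⟩
    · rintro x y (h | ⟨a, b, h1, h2, h3⟩)
      · exact Or.inl h.symm
      · exact Or.inr ⟨b, a, h2, h1, E.symm' h3⟩
    · rintro x y z (rfl | ⟨a, b, rfl, rfl, h3⟩) (rfl | ⟨a', b', h4, rfl, h6⟩)
      · exact Or.inl rfl
      · exact Or.inr ⟨a', b', h4, rfl, h6⟩
      · exact Or.inr ⟨a, b, rfl, rfl, h3⟩
      · obtain rfl := he h4
        exact Or.inr ⟨a, b', rfl, rfl, E.trans' h3 h6⟩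

theorem tr_iff {e : (ℕ → ℕ) → X} (he : Function.Injective e) (E : Setoid (ℕ → ℕ)) (a b : ℕ → ℕ) :
    tr he E (e a) (e b) ↔ E a b := by
  constructor
  · rintro (h | ⟨a', b', h1, h2, h3⟩)
    · rw [he h]
    · rw [← he h1, ← he h2]
      exact h3
  · exact fun h => Or.inr ⟨a, b, rfl, rfl, h⟩

end

theorem counter {X : Type} [TopologicalSpace X] [PolishSpace X] {e : (ℕ → ℕ) → X}
    (he : IsClosedEmbedding e) : ∃ E : Setoid X, Cr E ∧ Sm E ∧ C2 E ∧ ¬ Sepd E ∧ ¬ Rj E := by
  classical
  obtain ⟨E0, h1, ⟨Z, t, hZ, g, hg, h2⟩, h3, h4⟩ :=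
    Pool.Agent.Results.MP_b0da28_lc.ClosedNotReducible.result
  have hr : ¬ Rj (tr he.injective E0) := by
    rintro ⟨f, hf, h5⟩
    exact h4 ⟨f ∘ e, hf.comp he.continuous, fun a b => by
      rw [← tr_iff he.injective E0, h5]
      rfl⟩
  refine ⟨tr he.injective E0, ?_, ?_, ?_, ?_, hr⟩
  · have e1 : {p : X × X | tr he.injective E0 p.1 p.2} = {p : X × X | p.1 = p.2} ∪
        Prod.map e e '' {p : (ℕ → ℕ) × (ℕ → ℕ) | E0 p.1 p.2} := by
      ext ⟨x, y⟩
      constructor
      · rintro (h | ⟨a, b, rfl, rfl, h⟩)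
        · exact Or.inl h
        · exact Or.inr ⟨(a, b), h, rfl⟩
      · rintro (h | ⟨⟨a, b⟩, h, h'⟩)
        · exact Or.inl h
        · exact Or.inr ⟨a, b, congrArg Prod.fst h', congrArg Prod.snd h', h⟩
    show IsClosed _
    rw [e1]
    exact (isClosed_eq continuous_fst continuous_snd).union ((he.prodMap he).isClosedMap _ h1)
  · let : MeasurableSpace X := borel X
    have : BorelSpace X := ⟨rfl⟩
    let : MeasurableSpace Z := borel Z
    have : BorelSpace Z := ⟨rfl⟩
    let : MeasurableSpace (Z ⊕ X) := borel (Z ⊕ X)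
    have : BorelSpace (Z ⊕ X) := ⟨rfl⟩
    have hg' : Measurable g := by
      have e2 : borel (ℕ → ℕ) = (inferInstance : MeasurableSpace (ℕ → ℕ)) :=
        (BorelSpace.measurable_eq (α := ℕ → ℕ)).symm
      rw [e2] at hg
      exact hg
    refine ⟨Z ⊕ X, inferInstance, inferInstance,
      Function.extend e (fun a => Sum.inl (g a)) fun x => Sum.inr x, ?_, fun x y => ?_⟩
    · exact he.measurableEmbedding.measurable_extend (continuous_inl.measurable.comp hg')
        continuous_inr.measurable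
    · have hin : ∀ a, Function.extend e (fun a => (Sum.inl (g a) : Z ⊕ X)) (fun x => Sum.inr x)
          (e a) = Sum.inl (g a) := fun a => he.injective.extend_apply _ _ a
      have hout : ∀ x, (¬ ∃ a, e a = x) → Function.extend e (fun a => (Sum.inl (g a) : Z ⊕ X))
          (fun x => Sum.inr x) x = Sum.inr x := fun x hx => Function.extend_apply' _ _ x hx
      by_cases hx : ∃ a, e a = x
      · obtain ⟨a, rfl⟩ := hx
        by_cases hy : ∃ b, e b = y
        · obtain ⟨b, rfl⟩ := hy
          rw [tr_iff, hin, hin, h2, Sum.inl.injEq]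
        · rw [hin, hout y hy]
          refine iff_of_false ?_ (by simp)
          rintro (h | ⟨a', b', h5, h6, h7⟩)
          · exact hy ⟨a, h⟩
          · exact hy ⟨b', h6⟩
      · by_cases hy : ∃ b, e b = y
        · obtain ⟨b, rfl⟩ := hy
          rw [hin, hout x hx]
          refine iff_of_false ?_ (by simp)
          rintro (h | ⟨a', b', h5, h6, h7⟩)
          · exact hx ⟨b, h.symm⟩
          · exact hx ⟨a', h5⟩
        · rw [hout x hx, hout y hy, Sum.inr.injEq]
          refine ⟨?_, fun h => Or.inl h⟩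
          rintro (h | ⟨a', b', h5, h6, h7⟩)
          · exact h
          · exact absurd ⟨a', h5⟩ hx
  · rintro x y z (h | ⟨a, b, rfl, rfl, h5⟩) (h' | ⟨a', c, h6, rfl, h7⟩)
    · exact Or.inl h
    · exact Or.inl h
    · exact Or.inr (Or.inl h')
    · obtain rfl := he.injective h6
      rcases h3 _ _ _ h5 h7 with h8 | h8 | h8
      · exact Or.inl (congrArg e h8)
      · exact Or.inr (Or.inl (congrArg e h8))
      · exact Or.inr (Or.inr (congrArg e h8))
  · rintro ⟨U, h5, h6, h7⟩
    have h8 : Sepd E0 := ⟨fun n => e ⁻¹' U n, fun n => (h5 n).preimage he.continuous,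
      fun n a b hab ha => h6 n _ _ ((tr_iff he.injective E0 a b).2 hab) ha,
      fun a b hab => (tr_iff he.injective E0 a b).1 (h7 _ _ hab)⟩
    exact h4 (rj_of (red_of_sepd zd_baire h8))

end Pool.Agent.H2.HM
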