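import Pool.Agent.H2.HM.Bai

set_option autoImplicit false

/-!
The class of the infinite discrete closed sets.
-/

namespace Pool.Agent.H2.HM

open Set Filter Topology TopologicalSpace MeasureTheory
open Pool.Agent.H39.NonBorel (IF ev_eq res res_eq_iff continuous_res tendsto_of_res length_res)

section dis

variable {W : Type} [MetricSpace W] [SecondCountableTopology W]

/-- `V`, `V'` witness an accumulation near `x` -/
def Nr (x : W) (j : ℕ) (V V' : countableBasis W) : Prop :=
  (V : Set W) ⊆ Metric.closedBall x (1 / ((j : ℝ) + 1)) ∧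
    (V' : Set W) ⊆ Metric.closedBall x (1 / ((j : ℝ) + 1))

/-- two disjoint sets are hit -/
def Ht (B : Closeds W) (V V' : countableBasis W) : Prop :=
  Disjoint (V : Set W) V' ∧ ((B : Set W) ∩ V).Nonempty ∧ ((B : Set W) ∩ V').Nonempty

/-- accumulation -/
def Acc (B : Closeds W) (x : W) : Prop := ∀ j : ℕ, ∃ V V' : countableBasis W,
  Ht B V V' ∧ Nr x j V V'

theorem acc_of {B : Closeds W} {x : W} (hx : x ∈ B)
    (h : ∀ ε > 0, ∃ y ∈ B, y ≠ x ∧ dist y x < ε) : Acc B x := by
  intro j
  obtain ⟨y, hy, hne, hd⟩ := h (1 / ((j : ℝ) + 1)) (by positivity)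
  obtain ⟨O, O', hO, hO', hxO, hyO, hdis⟩ := t2_separation hne.symm
  obtain ⟨V, hV, hxV, hVs⟩ := (isBasis_countableBasis W).exists_subset_of_mem_open
    (show x ∈ O ∩ Metric.ball x (1 / ((j : ℝ) + 1)) from
      ⟨hxO, Metric.mem_ball_self (by positivity)⟩) (hO.inter Metric.isOpen_ball)
  obtain ⟨V', hV', hyV, hVs'⟩ := (isBasis_countableBasis W).exists_subset_of_mem_open
    (show y ∈ O' ∩ Metric.ball x (1 / ((j : ℝ) + 1)) from ⟨hyO, hd⟩) (hO'.inter Metric.isOpen_ball)
  exact ⟨⟨V, hV⟩, ⟨V', hV'⟩, ⟨hdis.mono (fun z hz => (hVs hz).1) fun z hz => (hVs' hz).1,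
    ⟨x, hx, hxV⟩, ⟨y, hy, hyV⟩⟩, fun z hz => Metric.ball_subset_closedBall (hVs hz).2,
      fun z hz => Metric.ball_subset_closedBall (hVs' hz).2⟩

theorem of_acc {B : Closeds W} {x : W} (h : Acc B x) :
    x ∈ B ∧ ∀ ε > 0, ∃ y ∈ B, y ≠ x ∧ dist y x < ε := by
  have h1 : ∀ ε > 0, ∃ y ∈ B, ∃ z ∈ B, y ≠ z ∧ dist y x < ε ∧ dist z x < ε := by
    intro ε hε
    obtain ⟨j, hj⟩ := exists_nat_one_div_lt hε
    obtain ⟨V, V', ⟨hd, ⟨y, hy, hyV⟩, ⟨z, hz, hzV⟩⟩, hV, hV'⟩ := h j
    refine ⟨y, hy, z, hz, ?_, (Metric.mem_closedBall.1 (hV hyV)).trans_lt hj,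
      (Metric.mem_closedBall.1 (hV' hzV)).trans_lt hj⟩
    rintro rfl
    exact disjoint_left.1 hd hyV hzV
  constructor
  · have : x ∈ closure (B : Set W) := by
      rw [Metric.mem_closure_iff]
      intro ε hε
      obtain ⟨y, hy, z, hz, -, h2, -⟩ := h1 ε hε
      exact ⟨y, hy, by rw [dist_comm]; exact h2⟩
    rw [B.isClosed.closure_eq] at this
    exact this
  · intro ε hε
    obtain ⟨y, hy, z, hz, hne, h2, h3⟩ := h1 ε hε
    by_cases hyx : y = x
    · exact ⟨z, hz, fun h => hne (hyx.trans h.symm), h3⟩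
    · exact ⟨y, hy, hyx, h2⟩

theorem discrete_iff (B : Closeds W) : DiscreteTopology B ↔ ∀ x, ¬ Acc B x := by
  constructor
  · intro hd x hx
    obtain ⟨h1, h2⟩ := of_acc hx
    have h3 : IsOpen ({⟨x, h1⟩} : Set B) := isOpen_discrete _
    obtain ⟨ε, hε, h4⟩ := Metric.isOpen_iff.1 h3 _ rfl
    obtain ⟨y, hy, hne, h5⟩ := h2 ε hε
    have h6 : (⟨y, hy⟩ : B) ∈ ({⟨x, h1⟩} : Set B) := h4 h5
    exact hne (congrArg Subtype.val h6)
  · intro h
    rw [discreteTopology_iff_isOpen_singleton]
    rintro ⟨x, hx⟩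
    rw [Metric.isOpen_iff]
    rintro _ rfl
    by_contra hcon
    push Not at hcon
    refine h x (acc_of hx fun ε hε => ?_)
    obtain ⟨⟨y, hy⟩, h1, h2⟩ := not_subset.1 (hcon ε hε)
    exact ⟨y, hy, fun he => h2 (Subtype.ext he), h1⟩

/-- infinity -/
def Inf (B : Closeds W) : Prop := ∀ n : ℕ, ∃ f : Fin (n + 1) → countableBasis W,
  (∀ i j, i ≠ j → Disjoint (f i : Set W) (f j)) ∧ ∀ i, ((B : Set W) ∩ f i).Nonempty

theorem inf_iff (B : Closeds W) : Inf B ↔ Infinite B := by
  constructor
  · intro h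
    by_contra hB
    rw [not_infinite_iff_finite] at hB
    obtain ⟨f, h1, h2⟩ := h (Nat.card B)
    choose g hg1 hg2 using h2
    have hinj : Function.Injective fun i => (⟨g i, hg1 i⟩ : B) := by
      intro i j hij
      by_contra hne
      have e : g i = g j := congrArg Subtype.val hij
      exact disjoint_left.1 (h1 i j hne) (hg2 i) (e ▸ hg2 j)
    have := Nat.card_le_card_of_injective _ hinj
    rw [Nat.card_eq_fintype_card, Fintype.card_fin] at this
    omega
  · intro hB n
    obtain ⟨s, hs⟩ := Infinite.exists_subset_card_eq B (n + 1)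
    obtain ⟨U, hU1, hU2⟩ := (s.finite_toSet.image Subtype.val).t2_separation
    have e : Nonempty (Fin (n + 1) ≃ s) := ⟨(s.equivFinOfCardEq hs).symm⟩
    obtain ⟨e⟩ := e
    have hx : ∀ i : Fin (n + 1), ∃ V : countableBasis W, ((e i : B) : W) ∈ (V : Set W) ∧
        (V : Set W) ⊆ U ((e i : B) : W) := by
      intro i
      obtain ⟨V, hV, h1, h2⟩ := (isBasis_countableBasis W).exists_subset_of_mem_open
        (hU1 ((e i : B) : W)).1 (hU1 ((e i : B) : W)).2
      exact ⟨⟨V, hV⟩, h1, h2⟩
    choose f hf1 hf2 using hx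
    refine ⟨f, fun i j hij => ?_, fun i => ⟨_, (e i : B).2, hf1 i⟩⟩
    refine (hU2 ⟨_, (e i).2, rfl⟩ ⟨_, (e j).2, rfl⟩ fun he => hij ?_).mono (hf2 i) (hf2 j)
    exact e.injective (Subtype.ext (Subtype.ext he))

theorem nat_iff (B : Closeds W) : Nonempty (B ≃ₜ ℕ) ↔ Inf B ∧ ∀ x, ¬ Acc B x := by
  rw [inf_iff, ← discrete_iff]
  constructor
  · rintro ⟨φ⟩
    exact ⟨Infinite.of_injective _ φ.symm.injective, φ.symm.discreteTopology⟩
  · rintro ⟨h1, h2⟩
    have : Countable B := TopologicalSpace.separableSpace_iff_countable.1 inferInstance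
    exact ⟨(Classical.choice nonempty_equiv_of_countable).toHomeomorphOfDiscrete⟩

theorem meas_inf : MeasurableSet[effros W] {B : Closeds W | Inf B} := by
  let := effros W
  have := (countable_countableBasis W).to_subtype
  have e : {B : Closeds W | Inf B} = ⋂ n : ℕ, ⋃ f : Fin (n + 1) → countableBasis W,
      ({_B : Closeds W | ∀ i j, i ≠ j → Disjoint (f i : Set W) (f j)} ∩
        ⋂ i, {B : Closeds W | ((B : Set W) ∩ f i).Nonempty}) := by
    ext B
    simp only [Inf, mem_iInter, mem_iUnion, mem_inter_iff, mem_ofPred_eq]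
  rw [e]
  refine MeasurableSet.iInter fun n => MeasurableSet.iUnion fun f => ?_
  exact (MeasurableSet.const _).inter (MeasurableSet.iInter fun i =>
    meas_hit (isOpen_of_mem_countableBasis (f i).2))

theorem meas_ht (V V' : countableBasis W) : MeasurableSet[effros W] {B : Closeds W | Ht B V V'} := by
  let := effros W
  exact (MeasurableSet.const _).inter ((meas_hit (isOpen_of_mem_countableBasis V.2)).inter
    (meas_hit (isOpen_of_mem_countableBasis V'.2)))

theorem compact_acc {K : Set W} (hK : IsCompact K) (B : Closeds W) : (∃ x ∈ K, Acc B x) ↔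
    ∀ j : ℕ, ∃ V V' : countableBasis W, Ht B V V' ∧ ∃ x ∈ K, Nr x j V V' := by
  constructor
  · rintro ⟨x, hx, h⟩ j
    obtain ⟨V, V', h1, h2⟩ := h j
    exact ⟨V, V', h1, x, hx, h2⟩
  · intro h
    choose V V' h1 x hx h2 using h
    obtain ⟨a, ha, φ, hφ, hlim⟩ := hK.tendsto_subseq hx
    refine ⟨a, ha, fun j => ?_⟩
    have h3 : (0 : ℝ) < 1 / ((j : ℝ) + 1) / 2 := by positivity
    obtain ⟨i, hi⟩ := exists_nat_one_div_lt h3
    obtain ⟨n, hn1, hn2⟩ := ((Metric.tendsto_nhds.1 hlim _ h3).and (eventually_ge_atTop i)).exists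
    have h4 : (1 : ℝ) / ((φ n : ℕ) + 1) ≤ 1 / ((i : ℝ) + 1) := by
      refine one_div_le_one_div_of_le (by positivity) ?_
      have : (i : ℝ) ≤ φ n := by exact_mod_cast hn2.trans hφ.le_apply
      linarith
    have h5 : ∀ y, dist y (x (φ n)) ≤ 1 / ((φ n : ℕ) + 1 : ℝ) → dist y a ≤ 1 / ((j : ℝ) + 1) := by
      intro y hy
      have h6 := dist_triangle y (x (φ n)) a
      have h7 : dist (x (φ n)) a < 1 / ((j : ℝ) + 1) / 2 := hn1
      linarith
    exact ⟨V (φ n), V' (φ n), h1 _, fun y hy => h5 y ((h2 (φ n)).1 hy),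
      fun y hy => h5 y ((h2 (φ n)).2 hy)⟩

end dis

/-- The class of the infinite discrete sets is Borel if the space is sigma-compact. -/
theorem borel_nat (W : Type) [TopologicalSpace W] [PolishSpace W] [SigmaCompactSpace W] :
    MeasurableSet[effros W] {B : Closeds W | Nonempty (B ≃ₜ ℕ)} := by
  let := effros W
  let := upgradeIsCompletelyMetrizable W
  have := (countable_countableBasis W).to_subtype
  have hK := isCompact_compactCovering W
  have hU : ∀ x : W, ∃ l, x ∈ compactCovering W l := fun x => by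
    have := iUnion_compactCovering W
    exact mem_iUnion.1 (this ▸ mem_univ x)
  have e : {B : Closeds W | Nonempty (B ≃ₜ ℕ)} = {B | Inf B} \ ⋃ l, ⋂ j : ℕ,
      ⋃ V : countableBasis W, ⋃ V' : countableBasis W,
        ({B | Ht B V V'} ∩ {B | ∃ x ∈ compactCovering W l, Nr x j V V'}) := by
    ext B
    rw [mem_ofPred_eq, nat_iff, Set.mem_sdiff]
    refine and_congr Iff.rfl ?_
    simp only [mem_iUnion, mem_iInter, mem_inter_iff, mem_ofPred_eq, not_exists]
    constructor
    · intro h l h1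
      obtain ⟨x, -, hx⟩ := (compact_acc (hK l) B).2 h1
      exact h x hx
    · intro h x hx
      obtain ⟨l, hl⟩ := hU x
      exact h l ((compact_acc (hK l) B).1 ⟨x, hl, hx⟩)
  rw [e]
  exact meas_inf.diff (MeasurableSet.iUnion fun l => MeasurableSet.iInter fun j =>
    MeasurableSet.iUnion fun V => MeasurableSet.iUnion fun V' =>
      (meas_ht V V').inter (MeasurableSet.const _))

/-- The class of the infinite discrete sets is coanalytic. -/
theorem coan_nat (W : Type) [TopologicalSpace W] [PolishSpace W] :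
    An (effros W) {B : Closeds W | ¬ Nonempty (B ≃ₜ ℕ)} := by
  let := effros W
  let := upgradeIsCompletelyMetrizable W
  let : MeasurableSpace W := borel W
  have : BorelSpace W := ⟨rfl⟩
  have := (countable_countableBasis W).to_subtype
  by_cases hW : IsEmpty W
  · refine ⟨univ, MeasurableSet.univ, ?_⟩
    ext B
    refine ⟨fun _ => ⟨fun _ => 0, trivial⟩, fun _ => ?_⟩
    rintro ⟨φ⟩
    exact hW.false (φ.symm 0 : W)
  rw [not_isEmpty_iff] at hW
  obtain ⟨s, hs, hss⟩ := PolishSpace.exists_nat_nat_continuous_surjective W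
  refine ⟨{p | ¬ Inf p.1} ∪ ⋂ j : ℕ, ⋃ V : countableBasis W, ⋃ V' : countableBasis W,
    ({p | Ht p.1 V V'} ∩ {p | Nr (s p.2) j V V'}), ?_, ?_⟩
  · refine (measurable_fst meas_inf).compl.union (MeasurableSet.iInter fun j =>
      MeasurableSet.iUnion fun V => MeasurableSet.iUnion fun V' =>
        (measurable_fst (meas_ht V V')).inter ?_)
    have h1 : ∀ V : countableBasis W, IsClosed {x : W |
        (V : Set W) ⊆ Metric.closedBall x (1 / ((j : ℝ) + 1))} := by
      intro V
      have : {x : W | (V : Set W) ⊆ Metric.closedBall x (1 / ((j : ℝ) + 1))} =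
          ⋂ v ∈ (V : Set W), {x | dist v x ≤ 1 / ((j : ℝ) + 1)} := by
        ext x
        simp only [mem_ofPred_eq, mem_iInter]
        exact Iff.rfl
      rw [this]
      exact isClosed_biInter fun v _ => isClosed_le (continuous_const.dist continuous_id)
        continuous_const
    have h2 : IsClosed {x : W | Nr x j V V'} := (h1 V).inter (h1 V')
    exact (hs.measurable.comp measurable_snd) h2.measurableSet
  · ext B
    rw [mem_ofPred_eq, nat_iff, not_and_or]
    simp only [mem_union, mem_ofPred_eq, mem_iUnion, mem_iInter, mem_inter_iff]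
    constructor
    · rintro (h | h)
      · exact ⟨fun _ => 0, Or.inl h⟩
      · push Not at h
        obtain ⟨x, hx⟩ := h
        obtain ⟨z, rfl⟩ := hss x
        exact ⟨z, Or.inr hx⟩
    · rintro ⟨z, h | h⟩
      · exact Or.inl h
      · exact Or.inr fun h' => h' (s z) h

/-- hardness -/
theorem hard_nat {U : Type} [TopologicalSpace U] {e : (ℕ → ℕ) → U} (he : IsClosedEmbedding e)
    {D : Set (ℕ → ℕ)} (hD : AnalyticSet Dᶜ) : ∃ f : (ℕ → ℕ) → Closeds U,
      @Measurable _ _ _ (effros U) f ∧ ∀ x, x ∈ D ↔ Nonempty (f x ≃ₜ ℕ) := by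
  classical
  let := effros U
  rw [AnalyticSet] at hD
  rcases hD with hD | ⟨h, hc, hr⟩
  · refine ⟨fun _ => gT he fun _ => false, measurable_const, fun x => ?_⟩
    rw [gT_iff]
    refine iff_of_true ?_ ?_
    · by_contra hx
      have : x ∈ Dᶜ := hx
      rw [hD] at this
      exact this
    · rintro ⟨y, hy⟩
      simpa using hy 0
  · let T : (ℕ → ℕ) → List ℕ → Bool := fun x l =>
      decide (∃ y, res y l.length = l ∧ res (h y) l.length = res x l.length)
    have hT : Continuous T := by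
      refine continuous_pi fun l => ?_
      exact continuous_res l.length fun m => decide (∃ y, res y l.length = l ∧
        res (h y) l.length = m)
    refine ⟨fun x => gT he (T x), (meas_gT he).comp hT.measurable, fun x => ?_⟩
    rw [gT_iff, ← not_iff_not, not_not]
    have h1 : x ∉ D ↔ ∃ y, h y = x := by
      rw [← mem_compl_iff, ← hr]
      exact Iff.rfl
    rw [h1]
    constructor
    · rintro ⟨y, rfl⟩
      refine ⟨y, fun n => ?_⟩
      show decide _ = true
      rw [decide_eq_true_iff]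
      refine ⟨y, ?_, rfl⟩
      rw [length_res]
    · rintro ⟨y, hy⟩
      have h2 : ∀ n, ∃ y', res y' n = res y n ∧ res (h y') n = res x n := by
        intro n
        have h3 : decide (∃ y', res y' (res y n).length = res y n ∧
          res (h y') (res y n).length = res x (res y n).length) = true := hy n
        rw [decide_eq_true_iff, length_res] at h3
        exact h3
      choose ys h3 h4 using h2
      have h5 : Tendsto ys atTop (𝓝 y) := tendsto_of_res h3
      have h6 : Tendsto (fun n => h (ys n)) atTop (𝓝 x) := tendsto_of_res h4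
      exact ⟨y, tendsto_nhds_unique ((hc.tendsto y).comp h5) h6⟩

end Pool.Agent.H2.HM
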