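import Pool.Graph.R_seed8.Results.MP_a9bf58_lc.SigmaComplete

set_option autoImplicit false

/-! Conversion of the definitions for the library theorem on `Σ¹₂`-completeness. -/

namespace Pool.Agent.H2.HM.S12

open Set Topology TopologicalSpace MeasureTheory Pool.Agent.Helper873.Pol

theorem an_of {α : Type} [MeasurableSpace α] [MeasurableEq α] {R : Set α} (h : IsAnalytic R) :
    ∃ B : Set (α × (ℕ → ℕ)), MeasurableSet B ∧ R = {x | ∃ z, (x, z) ∈ B} := by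
  obtain ⟨Z, _, _, _, _, B, f, hB, hf, rfl⟩ := h
  rcases isEmpty_or_nonempty Z with hZ | hZ
  · refine ⟨∅, MeasurableSet.empty, ?_⟩
    ext x
    constructor
    · rintro ⟨z, -, -⟩
      exact hZ.elim z
    · rintro ⟨z, hz⟩
      exact hz.elim
  · obtain ⟨π, hπ, hs⟩ := PolishSpace.exists_nat_nat_continuous_surjective Z
    refine ⟨{p : α × (ℕ → ℕ) | π p.2 ∈ B ∧ f (π p.2) = p.1},
      ((hπ.measurable.comp measurable_snd) hB).inter
        (measurableSet_eq_fun (hf.comp (hπ.measurable.comp measurable_snd)) measurable_fst), ?_⟩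
    ext x
    constructor
    · rintro ⟨z, hz, rfl⟩
      obtain ⟨w, rfl⟩ := hs z
      exact ⟨w, hz, rfl⟩
    · rintro ⟨w, hw1, hw2⟩
      exact ⟨π w, hw1, hw2⟩

theorem isAnalytic_of {α : Type} [TopologicalSpace α] [PolishSpace α] [MeasurableSpace α]
    [BorelSpace α] {R : Set α} {B : Set (α × (ℕ → ℕ))} (hB : MeasurableSet B)
    (h : R = {x | ∃ z, (x, z) ∈ B}) : IsAnalytic R := by
  refine ⟨α × (ℕ → ℕ), inferInstance, inferInstance, inferInstance, inferInstance, B, Prod.fst,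
    hB, measurable_fst, ?_⟩
  rw [h]
  ext x
  constructor
  · rintro ⟨⟨a, z⟩, hz, rfl⟩
    exact ⟨z, hz⟩
  · rintro ⟨z, hz⟩
    exact ⟨(x, z), hz, rfl⟩

theorem sigma12 {α : Type} [MeasurableSpace α] [MeasurableEq α] {s : Set α} (h : IsSigma12 s) :
    ∃ C : Set (α × (ℕ → ℕ)), (∃ B : Set ((α × (ℕ → ℕ)) × (ℕ → ℕ)), MeasurableSet B ∧
      Cᶜ = {x | ∃ z, (x, z) ∈ B}) ∧ s = {x | ∃ z, (x, z) ∈ C} := by
  obtain ⟨Z, _, _, _, _, R, hR, rfl⟩ := h
  rcases isEmpty_or_nonempty Z with hZ | hZ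
  · refine ⟨∅, ⟨univ, MeasurableSet.univ, ?_⟩, ?_⟩
    · ext x
      exact ⟨fun _ => ⟨fun _ => 0, mem_univ _⟩, fun _ => id⟩
    · ext x
      constructor
      · rintro ⟨z, -⟩
        exact hZ.elim z
      · rintro ⟨z, hz⟩
        exact hz.elim
  · obtain ⟨π, hπ, hs⟩ := PolishSpace.exists_nat_nat_continuous_surjective Z
    obtain ⟨B, hB, rfl⟩ := an_of hR
    refine ⟨{p | ((p.1, π p.2) : α × Z) ∉ {x | ∃ z, (x, z) ∈ B}},
      ⟨{q | (((q.1.1, π q.1.2) : α × Z), q.2) ∈ B}, ?_, ?_⟩, ?_⟩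
    · have hm : Measurable fun q : (α × (ℕ → ℕ)) × (ℕ → ℕ) =>
          ((((q.1.1, π q.1.2) : α × Z), q.2) : (α × Z) × (ℕ → ℕ)) :=
        ((measurable_fst.comp measurable_fst).prodMk
          (hπ.measurable.comp (measurable_snd.comp measurable_fst))).prodMk measurable_snd
      exact hm hB
    · ext p
      simp only [mem_compl_iff, mem_ofPred_eq, not_not]
    · ext a
      constructor
      · rintro ⟨z, hz⟩
        obtain ⟨w, rfl⟩ := hs z
        exact ⟨w, hz⟩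
      · rintro ⟨w, hw⟩
        exact ⟨π w, hw⟩

theorem isSigma12_of {D : Set (ℕ → ℕ)} (h : ∃ C : Set ((ℕ → ℕ) × (ℕ → ℕ)),
    (∃ B : Set (((ℕ → ℕ) × (ℕ → ℕ)) × (ℕ → ℕ)), MeasurableSet B ∧ Cᶜ = {x | ∃ z, (x, z) ∈ B}) ∧
      D = {x | ∃ z, (x, z) ∈ C}) : IsSigma12 D := by
  obtain ⟨C, ⟨B, hB, hC⟩, hD⟩ := h
  refine ⟨ℕ → ℕ, inferInstance, inferInstance, inferInstance, inferInstance, Cᶜ,
    isAnalytic_of hB hC, ?_⟩
  rw [hD]
  ext x
  simp only [mem_ofPred_eq, mem_compl_iff, not_not]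

end Pool.Agent.H2.HM.S12
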