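import Mathlib

set_option autoImplicit false

/-!
Homeomorphism of the closed subsets of a sigma-compact Polish space is analytic.
-/

namespace Pool.Agent.H2.HM

open Set Filter Topology TopologicalSpace MeasureTheory

section ext

variable {W : Type} [MetricSpace W]

/-- the pairs of sequences `a`, `b` such that `a n ↦ b n` extends continuously -/
def Cn (a b : ℕ → W) : Prop := ∀ k : ℕ, ∀ x : W, ∃ j : ℕ, ∀ n m,
  dist (a n) x < 1 / ((j : ℝ) + 1) → dist (a m) x < 1 / ((j : ℝ) + 1) →
    dist (b n) (b m) ≤ 1 / ((k : ℝ) + 1)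

/-- the natural numbers, without topology -/
def Nt : Type := ℕ

/-- the dense sequence of its closure -/
def ic (a : ℕ → W) (n : Nt) : closure (range a) := ⟨a n, subset_closure ⟨n, rfl⟩⟩

theorem dense_ic (a : ℕ → W) : DenseRange (ic a) := by
  intro x
  rw [Metric.mem_closure_iff]
  intro ε hε
  obtain ⟨_, ⟨n, rfl⟩, h⟩ := Metric.mem_closure_iff.1 x.2 ε hε
  exact ⟨_, ⟨n, rfl⟩, h⟩

theorem exists_ext [CompleteSpace W] {a b : ℕ → W} (h : Cn a b) :
    ∃ φ : closure (range a) → closure (range b), Continuous φ ∧ ∀ n, φ (ic a n) = ic b n := by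
  let t : TopologicalSpace Nt := induced (ic a) inferInstance
  have di : IsDenseInducing (ic a) := ⟨⟨rfl⟩, dense_ic a⟩
  let bt : Nt → W := b
  have hcau : ∀ x : closure (range a), Cauchy (map bt (comap (ic a) (𝓝 x))) := by
    intro x
    have hne : NeBot (comap (ic a) (𝓝 x)) := di.comap_nhds_neBot x
    rw [Metric.cauchy_iff]
    refine ⟨hne.map bt, fun ε hε => ?_⟩
    obtain ⟨k, hk⟩ := exists_nat_one_div_lt hε
    obtain ⟨j, hj⟩ := h k x
    refine ⟨bt '' {n : Nt | dist (a n) x < 1 / ((j : ℝ) + 1)}, ?_, ?_⟩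
    · refine image_mem_map ?_
      exact ⟨Metric.ball x (1 / ((j : ℝ) + 1)), Metric.ball_mem_nhds _ (by positivity),
        fun n hn => hn⟩
    · rintro _ ⟨n, hn, rfl⟩ _ ⟨m, hm, rfl⟩
      exact (hj n m hn hm).trans_lt hk
  have hc : Continuous (di.extend bt) := di.continuous_extend_of_cauchy hcau
  have hv : ∀ n, di.extend bt (ic a n) = bt n :=
    fun n => di.extend_eq' (fun x => CompleteSpace.complete (hcau x)) n
  have hm : ∀ x, di.extend bt x ∈ closure (range b) := fun x =>
    (dense_ic a).induction_on x (isClosed_closure.preimage hc) fun n => by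
      rw [hv]
      exact subset_closure ⟨n, rfl⟩
  exact ⟨fun x => ⟨_, hm x⟩, hc.subtype_mk _, fun n => Subtype.ext (hv n)⟩

theorem homeo_of [CompleteSpace W] {a b : ℕ → W} (h : Cn a b) (h' : Cn b a) :
    Nonempty (closure (range a) ≃ₜ closure (range b)) := by
  obtain ⟨φ, h1, h2⟩ := exists_ext h
  obtain ⟨ψ, h3, h4⟩ := exists_ext h'
  have e1 : ψ ∘ φ = id := (dense_ic a).equalizer (h3.comp h1) continuous_id
    (funext fun n => by
      show ψ (φ (ic a n)) = ic a n
      rw [h2, h4])
  have e2 : φ ∘ ψ = id := (dense_ic b).equalizer (h1.comp h3) continuous_id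
    (funext fun n => by
      show φ (ψ (ic b n)) = ic b n
      rw [h4, h2])
  exact ⟨⟨⟨φ, ψ, congrFun e1, congrFun e2⟩, h1, h3⟩⟩

theorem cn_of {A B : Set W} (hA : IsClosed A) {f : A → B} (hf : Continuous f) (a : ℕ → A) :
    Cn (fun n => (a n : W)) fun n => (f (a n) : W) := by
  intro k x
  by_cases hx : x ∈ A
  · obtain ⟨δ, hδ, h⟩ := Metric.continuousAt_iff.1 (hf.continuousAt (x := ⟨x, hx⟩))
      (1 / ((k : ℝ) + 1) / 2) (by positivity)
    obtain ⟨j, hj⟩ := exists_nat_one_div_lt hδ
    refine ⟨j, fun n m h1 h2 => ?_⟩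
    have h3 : dist (f (a n) : W) (f ⟨x, hx⟩) < 1 / ((k : ℝ) + 1) / 2 := h (h1.trans hj)
    have h4 : dist (f (a m) : W) (f ⟨x, hx⟩) < 1 / ((k : ℝ) + 1) / 2 := h (h2.trans hj)
    have h5 := dist_triangle_right (f (a n) : W) (f (a m)) (f ⟨x, hx⟩)
    linarith
  · obtain ⟨δ, hδ, h⟩ := Metric.isOpen_iff.1 hA.isOpen_compl x hx
    obtain ⟨j, hj⟩ := exists_nat_one_div_lt hδ
    exact ⟨j, fun n m h1 _ => absurd (a n).2 (h (h1.trans hj))⟩

theorem of_homeo {A B : Set W} (hA : IsClosed A) (hB : IsClosed B) (φ : A ≃ₜ B) {a : ℕ → W}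
    (ha : closure (range a) = A) : ∃ b : ℕ → W, closure (range b) = B ∧ Cn a b ∧ Cn b a := by
  let a' : ℕ → A := fun n => ⟨a n, ha ▸ subset_closure ⟨n, rfl⟩⟩
  have hd : DenseRange a' := by
    intro x
    rw [Metric.mem_closure_iff]
    intro ε hε
    have hx : (x : W) ∈ closure (range a) := by
      rw [ha]
      exact x.2
    obtain ⟨_, ⟨n, rfl⟩, h⟩ := Metric.mem_closure_iff.1 hx ε hε
    exact ⟨_, ⟨n, rfl⟩, h⟩
  have hd' : DenseRange (φ ∘ a') := φ.surjective.denseRange.comp hd φ.continuous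
  refine ⟨fun n => (φ (a' n) : W), ?_, cn_of hA φ.continuous a', ?_⟩
  · refine Subset.antisymm ?_ fun y hy => ?_
    · refine closure_minimal ?_ hB
      rintro _ ⟨n, rfl⟩
      exact (φ (a' n)).2
    · have h1 := image_closure_subset_closure_image (continuous_subtype_val (p := (· ∈ B)))
        (s := range (φ ∘ a')) ⟨⟨y, hy⟩, hd' _, rfl⟩
      rw [← range_comp] at h1
      exact h1
  · have h1 := cn_of hB φ.symm.continuous fun n => φ (a' n)
    simp only [φ.symm_apply_apply] at h1
    exact h1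

theorem cn_iff {K : ℕ → Set W} (hK : ∀ l, IsCompact (K l)) (hU : ∀ x, ∃ l, x ∈ K l)
    (a b : ℕ → W) : Cn a b ↔ ∀ k l : ℕ, ∃ j : ℕ, ∀ n m,
      (∃ x ∈ K l, dist (a n) x < 1 / ((j : ℝ) + 1) ∧ dist (a m) x < 1 / ((j : ℝ) + 1)) →
        dist (b n) (b m) ≤ 1 / ((k : ℝ) + 1) := by
  constructor
  · intro h k l
    have hmo : ∀ {j j' : ℕ}, j ≤ j' → 1 / ((j' : ℝ) + 1) ≤ 1 / ((j : ℝ) + 1) := by
      intro j j' hj
      have : (j : ℝ) ≤ j' := by exact_mod_cast hj
      exact one_div_le_one_div_of_le (by positivity) (by linarith)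
    refine (hK l).induction_on (p := fun S => ∃ j : ℕ, ∀ n m,
      (∃ x ∈ S, dist (a n) x < 1 / ((j : ℝ) + 1) ∧ dist (a m) x < 1 / ((j : ℝ) + 1)) →
        dist (b n) (b m) ≤ 1 / ((k : ℝ) + 1)) ?_ ?_ ?_ ?_
    · exact ⟨0, fun n m ⟨x, hx, _⟩ => absurd hx (notMem_empty x)⟩
    · rintro s t hst ⟨j, hj⟩
      exact ⟨j, fun n m ⟨x, hx, hx'⟩ => hj n m ⟨x, hst hx, hx'⟩⟩
    · rintro s t ⟨j, hj⟩ ⟨j', hj'⟩
      refine ⟨max j j', fun n m ⟨x, hx, h1, h2⟩ => ?_⟩
      rcases hx with hx | hx
      · exact hj n m ⟨x, hx, h1.trans_le (hmo (le_max_left _ _)),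
          h2.trans_le (hmo (le_max_left _ _))⟩
      · exact hj' n m ⟨x, hx, h1.trans_le (hmo (le_max_right _ _)),
          h2.trans_le (hmo (le_max_right _ _))⟩
    · intro x _
      obtain ⟨j, hj⟩ := h k x
      obtain ⟨i, hi⟩ := exists_nat_one_div_lt (show (0 : ℝ) < 1 / ((j : ℝ) + 1) / 2 by positivity)
      refine ⟨Metric.ball x (1 / ((i : ℝ) + 1)),
        mem_nhdsWithin_of_mem_nhds (Metric.ball_mem_nhds _ (by positivity)), i,
        fun n m ⟨z, hz, h1, h2⟩ => hj n m ?_ ?_⟩
      · have h3 := dist_triangle (a n) z x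
        have h4 : dist z x < 1 / ((i : ℝ) + 1) := hz
        linarith
      · have h3 := dist_triangle (a m) z x
        have h4 : dist z x < 1 / ((i : ℝ) + 1) := hz
        linarith
  · intro h k x
    obtain ⟨l, hl⟩ := hU x
    obtain ⟨j, hj⟩ := h k l
    exact ⟨j, fun n m h1 h2 => hj n m ⟨x, hl, h1, h2⟩⟩

theorem meas_cn [SecondCountableTopology W] [MeasurableSpace W] [BorelSpace W] {K : ℕ → Set W}
    (hK : ∀ l, IsCompact (K l)) (hU : ∀ x, ∃ l, x ∈ K l) :
    MeasurableSet {p : (ℕ → W) × (ℕ → W) | Cn p.1 p.2} := by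
  simp only [cn_iff hK hU]
  have h1 : ∀ n, Continuous fun p : (ℕ → W) × (ℕ → W) => p.1 n :=
    fun n => (continuous_apply n).comp continuous_fst
  have h2 : ∀ n, Continuous fun p : (ℕ → W) × (ℕ → W) => p.2 n :=
    fun n => (continuous_apply n).comp continuous_snd
  simp only [ofPred_forall, ofPred_exists, imp_iff_not_or]
  refine MeasurableSet.iInter fun k => MeasurableSet.iInter fun l => MeasurableSet.iUnion fun j =>
    MeasurableSet.iInter fun n => MeasurableSet.iInter fun m => ?_
  have h3 : IsOpen {p : (ℕ → W) × (ℕ → W) | ∃ x ∈ K l, dist (p.1 n) x < 1 / ((j : ℝ) + 1) ∧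
      dist (p.1 m) x < 1 / ((j : ℝ) + 1)} := by
    have : {p : (ℕ → W) × (ℕ → W) | ∃ x ∈ K l, dist (p.1 n) x < 1 / ((j : ℝ) + 1) ∧
        dist (p.1 m) x < 1 / ((j : ℝ) + 1)} = ⋃ x ∈ K l, {p | dist (p.1 n) x < 1 / ((j : ℝ) + 1) ∧
          dist (p.1 m) x < 1 / ((j : ℝ) + 1)} := by
      ext p
      simp only [mem_ofPred_eq, mem_iUnion, exists_prop]
    rw [this]
    exact isOpen_biUnion fun x _ =>
      (isOpen_lt ((h1 n).dist continuous_const) continuous_const).inter
        (isOpen_lt ((h1 m).dist continuous_const) continuous_const)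
  have h4 : IsClosed {p : (ℕ → W) × (ℕ → W) | dist (p.2 n) (p.2 m) ≤ 1 / ((k : ℝ) + 1)} :=
    isClosed_le ((h2 n).dist (h2 m)) continuous_const
  exact h3.measurableSet.compl.union h4.measurableSet

end ext

/-- The Effros Borel structure. -/
@[reducible] def effros (U : Type) [TopologicalSpace U] : MeasurableSpace (Closeds U) :=
  MeasurableSpace.generateFrom
    {A | ∃ V : Set U, IsOpen V ∧ A = {F : Closeds U | ((F : Set U) ∩ V).Nonempty}}

/-- the closure of a sequence -/
def cl {U : Type} [TopologicalSpace U] (a : ℕ → U) : Closeds U := ⟨closure (range a), isClosed_closure⟩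

theorem meas_hit {U : Type} [TopologicalSpace U] {V : Set U} (hV : IsOpen V) :
    MeasurableSet[effros U] {F : Closeds U | ((F : Set U) ∩ V).Nonempty} :=
  MeasurableSpace.measurableSet_generateFrom ⟨V, hV, rfl⟩

theorem meas_cl {U : Type} [TopologicalSpace U] [SecondCountableTopology U] [MeasurableSpace U]
    [BorelSpace U] : @Measurable _ _ _ (effros U) (cl : (ℕ → U) → Closeds U) := by
  refine @measurable_generateFrom _ _ _ _ _ ?_
  rintro _ ⟨V, hV, rfl⟩
  have : (cl : (ℕ → U) → Closeds U) ⁻¹' {F : Closeds U | ((F : Set U) ∩ V).Nonempty} =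
      ⋃ n, {a | a n ∈ V} := by
    ext a
    simp only [mem_preimage, mem_ofPred_eq, mem_iUnion]
    constructor
    · rintro ⟨x, hx, hxV⟩
      obtain ⟨_, h1, ⟨n, rfl⟩⟩ := mem_closure_iff.1 hx V hV hxV
      exact ⟨n, h1⟩
    · rintro ⟨n, hn⟩
      exact ⟨a n, subset_closure ⟨n, rfl⟩, hn⟩
  rw [this]
  exact MeasurableSet.iUnion fun n => measurable_pi_apply n hV.measurableSet

theorem meas_eq {U : Type} [TopologicalSpace U] [SecondCountableTopology U] {X : Type}
    [MeasurableSpace X] {a b : X → Closeds U} (ha : @Measurable _ _ _ (effros U) a)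
    (hb : @Measurable _ _ _ (effros U) b) : MeasurableSet {x | a x = b x} := by
  have : {x | a x = b x} = ⋂ V ∈ countableBasis U,
      {x | ((a x : Set U) ∩ V).Nonempty ↔ ((b x : Set U) ∩ V).Nonempty} := by
    ext x
    simp only [mem_ofPred_eq, mem_iInter]
    refine ⟨fun h V _ => by rw [h], fun h => Closeds.ext ?_⟩
    ext u
    rw [← (a x).isClosed.closure_eq, ← (b x).isClosed.closure_eq,
      (isBasis_countableBasis U).mem_closure_iff, (isBasis_countableBasis U).mem_closure_iff]
    exact forall₂_congr fun V hV => by rw [inter_comm V, inter_comm V, h V hV]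
  rw [this]
  exact MeasurableSet.biInter (countable_countableBasis U) fun V h =>
    measurableSet_setOfPred.2 ((measurableSet_setOfPred.1
      (ha (meas_hit (isOpen_of_mem_countableBasis h)))).iff
      (measurableSet_setOfPred.1 (hb (meas_hit (isOpen_of_mem_countableBasis h)))))

/-- Analytic sets: projections of Borel sets. -/
def An {X : Type} (m : MeasurableSpace X) (A : Set X) : Prop :=
  ∃ B : Set (X × (ℕ → ℕ)), MeasurableSet[m.prod inferInstance] B ∧ A = {x | ∃ z, (x, z) ∈ B}

/-- **Homeomorphism of the closed subsets of a sigma-compact Polish space is analytic.** -/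
theorem an_homeo (W : Type) [TopologicalSpace W] [PolishSpace W] [SigmaCompactSpace W] :
    An ((effros W).prod (effros W)) {p : Closeds W × Closeds W | Nonempty (p.1 ≃ₜ p.2)} := by
  classical
  let := effros W
  let := upgradeIsCompletelyMetrizable W
  let : MeasurableSpace W := borel W
  have : BorelSpace W := ⟨rfl⟩
  by_cases hW : IsEmpty W
  · refine ⟨univ, MeasurableSet.univ, ?_⟩
    ext ⟨A, B⟩
    have e : A = B := by
      ext x
      exact (hW.false x).elim
    subst e
    exact ⟨fun _ => ⟨fun _ => 0, trivial⟩, fun _ => ⟨Homeomorph.refl _⟩⟩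
  rw [not_isEmpty_iff] at hW
  obtain ⟨s, hs, hss⟩ := PolishSpace.exists_nat_nat_continuous_surjective ((ℕ → W) × (ℕ → W))
  have hK := isCompact_compactCovering W
  have hU : ∀ x : W, ∃ l, x ∈ compactCovering W l := fun x => by
    have := iUnion_compactCovering W
    exact mem_iUnion.1 (this ▸ mem_univ x)
  refine ⟨{p | (p.1.1 = ⊥ ∧ p.1.2 = ⊥) ∨ ((p.1.1 = cl (s p.2).1 ∧ p.1.2 = cl (s p.2).2) ∧
    Cn (s p.2).1 (s p.2).2 ∧ Cn (s p.2).2 (s p.2).1)}, ?_, ?_⟩
  · have h11 : Measurable fun p : (Closeds W × Closeds W) × (ℕ → ℕ) => p.1.1 :=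
      measurable_fst.comp measurable_fst
    have h12 : Measurable fun p : (Closeds W × Closeds W) × (ℕ → ℕ) => p.1.2 :=
      measurable_snd.comp measurable_fst
    have hs2 : Measurable fun p : (Closeds W × Closeds W) × (ℕ → ℕ) => s p.2 :=
      hs.measurable.comp measurable_snd
    refine MeasurableSet.union ?_ (MeasurableSet.inter ?_ (MeasurableSet.inter ?_ ?_))
    · exact (meas_eq h11 measurable_const).inter (meas_eq h12 measurable_const)
    · exact (meas_eq h11 (meas_cl.comp (measurable_fst.comp hs2))).inter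
        (meas_eq h12 (meas_cl.comp (measurable_snd.comp hs2)))
    · exact hs2 (meas_cn hK hU)
    · exact (measurable_swap.comp hs2) (meas_cn hK hU)
  · ext ⟨A, B⟩
    constructor
    · rintro ⟨φ⟩
      by_cases hA : (A : Set W).Nonempty
      · have hne : Nonempty A := hA.to_subtype
        obtain ⟨a', ha'⟩ := exists_dense_seq A
        have ha : closure (range fun n => (a' n : W)) = A := by
          refine Subset.antisymm ?_ fun y hy => ?_
          · refine closure_minimal ?_ A.isClosed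
            rintro _ ⟨n, rfl⟩
            exact (a' n).2
          · have h1 := image_closure_subset_closure_image
              (continuous_subtype_val (p := (· ∈ (A : Set W)))) (s := range a')
              ⟨⟨y, hy⟩, ha' _, rfl⟩
            rw [← range_comp] at h1
            exact h1
        obtain ⟨b, hb, h1, h2⟩ := of_homeo A.isClosed B.isClosed φ ha
        obtain ⟨z, hz⟩ := hss (fun n => (a' n : W), b)
        refine ⟨z, Or.inr ⟨⟨?_, ?_⟩, ?_, ?_⟩⟩
        · show A = cl (s z).1
          rw [hz]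
          exact (Closeds.ext ha).symm
        · show B = cl (s z).2
          rw [hz]
          exact (Closeds.ext hb).symm
        · show Cn (s z).1 (s z).2
          rw [hz]
          exact h1
        · show Cn (s z).2 (s z).1
          rw [hz]
          exact h2
      · refine ⟨fun _ => 0, Or.inl ⟨?_, ?_⟩⟩
        · refine Closeds.ext ?_
          rw [not_nonempty_iff_eq_empty] at hA
          exact hA
        · refine Closeds.ext ?_
          show (B : Set W) = ∅
          by_contra hB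
          obtain ⟨y, hy⟩ := nonempty_iff_ne_empty.2 hB
          exact hA ⟨_, (φ.symm ⟨y, hy⟩).2⟩
    · rintro ⟨z, ⟨h1, h2⟩ | ⟨⟨h1, h2⟩, h3, h4⟩⟩
      · have e1 : A = ⊥ := h1
        have e2 : B = ⊥ := h2
        subst e1
        subst e2
        exact ⟨Homeomorph.refl _⟩
      · have e1 : A = cl (s z).1 := h1
        have e2 : B = cl (s z).2 := h2
        rw [e1, e2]
        exact homeo_of h3 h4

end Pool.Agent.H2.HM
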